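import Pool.Agent.Run7.h843.P21.Sym2
import Pool.Agent.Run7.h209.P21.M

/-!
The sign of the constant: `κ₂₁ > 0`.
-/

set_option autoImplicit false

open Filter Topology MeasureTheory Set

namespace Pool.Agent.Run7.h843.P21.MS

open Pool.Agent.W97.TW
open Pool.Agent.W97.MT (qq qq_ne norm_qq norm_qq_lt im_mul z_ne H_open QV iI iI_pos iI_eventually
  tendsto_qq S_QEXP S_INJ S_ODE S_SUB hasDerivAt_qq tpi_ne line_im line_re inv_I im_aux frac_aux
  qq_conj eq_or_eq_neg comp_cont const_of_deriv Q_ne Q_ne_pow)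
open Pool.Agent.Run7.h741.MG
open Pool.Agent.Run7.h741.MF (hqe)
open Pool.Agent.Run7.h843.P21.Lk (Hm hom_eq Fp_cusp0)
open Pool.Agent.Run7.h843.P21 (Fp)

/-! ### infinite products -/

lemma prod_sub_one {u : ℕ → ℂ} {S : ℝ} (h : HasSum (fun i => ‖u i‖) S) :
    ‖∏' i, (1 + u i) - 1‖ ≤ Real.exp S - 1 := by
  have hm : Multipliable (fun i : ℕ => 1 + u i) := multipliable_one_add_of_summable h.summable
  have hp := hm.hasProd
  refine le_of_tendsto ((hp.sub_const 1).norm) (Eventually.of_forall fun s => ?_)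
  refine (s.norm_prod_one_add_sub_one_le _).trans (sub_le_sub_right (Real.exp_le_exp.2 ?_) 1)
  exact sum_le_hasSum s (fun i _ => norm_nonneg _) h

lemma hasSum_pow (q : ℂ) (hq : ‖q‖ < 1) (k : ℕ) :
    HasSum (fun i : ℕ => ‖-(q ^ (i + k))‖) (‖q‖ ^ k / (1 - ‖q‖)) := by
  have h1 := (hasSum_geometric_of_lt_one (norm_nonneg q) hq).mul_left (‖q‖ ^ k)
  rw [← div_eq_mul_inv] at h1
  refine h1.congr_fun ?_ |> fun x => x
  intro i
  rw [norm_neg, norm_pow, pow_add, mul_comm]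

lemma Q_eq (q : ℂ) : Q q = ∏' i : ℕ, (1 + (-(q ^ (i + 1)))) := by
  unfold Q
  exact tprod_congr fun i => by ring

lemma Q_sub_one {q : ℂ} (hq : ‖q‖ < 1) : ‖Q q - 1‖ ≤ Real.exp (‖q‖ / (1 - ‖q‖)) - 1 := by
  rw [Q_eq]
  have h := prod_sub_one (hasSum_pow q hq 1)
  rwa [pow_one] at h

/-- the product without its first factor -/
noncomputable def Q2 (q : ℂ) : ℂ := ∏' i : ℕ, (1 + (-(q ^ (i + 2))))

lemma Q_split {q : ℂ} (hq : ‖q‖ < 1) : Q q = (1 - q) * Q2 q := by
  have hm : Multipliable (fun i : ℕ => 1 + (-(q ^ (i + 1 + 1)))) :=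
    multipliable_one_add_of_summable (hasSum_pow q hq 2).summable
  rw [Q_eq, tprod_eq_zero_mul' (f := fun i : ℕ => 1 + (-(q ^ (i + 1)))) hm]
  unfold Q2
  rw [zero_add, pow_one, ← sub_eq_add_neg]

lemma Q2_sub_one {q : ℂ} (hq : ‖q‖ < 1) : ‖Q2 q - 1‖ ≤ Real.exp (‖q‖ ^ 2 / (1 - ‖q‖)) - 1 :=
  prod_sub_one (hasSum_pow q hq 2)

lemma mul_sub_one {a b : ℂ} {A B : ℝ} (ha : ‖a - 1‖ ≤ Real.exp A - 1) (hb : ‖b - 1‖ ≤ Real.exp B - 1) :
    ‖a * b - 1‖ ≤ Real.exp (A + B) - 1 := by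
  have e : a * b - 1 = (a - 1) * (b - 1) + ((a - 1) + (b - 1)) := by ring
  rw [e, Real.exp_add]
  have h1 := norm_nonneg (a - 1)
  have h2 := norm_nonneg (b - 1)
  have h3 : ‖(a - 1) * (b - 1) + ((a - 1) + (b - 1))‖ ≤
      ‖a - 1‖ * ‖b - 1‖ + (‖a - 1‖ + ‖b - 1‖) := by
    refine (norm_add_le _ _).trans ?_
    rw [norm_mul]
    have := norm_add_le (a - 1) (b - 1)
    linarith
  have h4 : ‖a - 1‖ * ‖b - 1‖ ≤ (Real.exp A - 1) * (Real.exp B - 1) :=
    mul_le_mul ha hb h2 (h1.trans ha)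
  nlinarith

lemma Q_conj {q : ℂ} (hq : ‖q‖ < 1) : Q (starRingEnd ℂ q) = starRingEnd ℂ (Q q) := by
  obtain ⟨φ, -, hr, -⟩ := hqe
  have hR : W97.MT.Rep Q φ := fun q hq => by
    have := hr q hq
    simpa [Q] using this
  exact rep_conj hR hq

/-! ### the line `Re z = 1/3` -/

/-- the third root of unity -/
noncomputable def om : ℂ := ((-(1 / 2) : ℝ) : ℂ) + ((Real.sqrt 3 / 2 : ℝ) : ℂ) * Complex.I

lemma om_im : om.im = Real.sqrt 3 / 2 := by
  unfold om
  simp

lemma om_re : om.re = -(1 / 2) := by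
  unfold om
  simp

lemma om_norm : ‖om‖ = 1 := by
  have h : ‖om‖ ^ 2 = 1 := by
    rw [← Complex.normSq_eq_norm_sq, Complex.normSq_apply, om_re, om_im]
    have := Real.sq_sqrt (show (0 : ℝ) ≤ 3 by norm_num)
    nlinarith
  have h0 := norm_nonneg om
  nlinarith

lemma om_conj_mul : (starRingEnd ℂ om) * om = 1 := by
  rw [mul_comm, Complex.mul_conj, Complex.normSq_eq_norm_sq, om_norm]
  norm_num

lemma om_sq : om ^ 2 = starRingEnd ℂ om := by
  have h3 := Real.sq_sqrt (show (0 : ℝ) ≤ 3 by norm_num)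
  apply Complex.ext
  · rw [pow_two, Complex.mul_re, Complex.conj_re, om_re, om_im]
    nlinarith
  · rw [pow_two, Complex.mul_im, Complex.conj_im, om_re, om_im]
    ring

lemma om_cube : om ^ 3 = 1 := by
  rw [pow_succ, om_sq, om_conj_mul]

lemma exp_om : Complex.exp (((2 * Real.pi / 3 : ℝ) : ℂ) * Complex.I) = om := by
  rw [Complex.exp_mul_I, ← Complex.ofReal_cos, ← Complex.ofReal_sin]
  have h1 : Real.cos (2 * Real.pi / 3) = -(1 / 2) := by
    rw [show 2 * Real.pi / 3 = Real.pi - Real.pi / 3 by ring, Real.cos_pi_sub, Real.cos_pi_div_three]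
  have h2 : Real.sin (2 * Real.pi / 3) = Real.sqrt 3 / 2 := by
    rw [show 2 * Real.pi / 3 = Real.pi - Real.pi / 3 by ring, Real.sin_pi_sub, Real.sin_pi_div_three]
  rw [h1, h2]
  rfl

/-- the point `1/3 + it` -/
noncomputable def zt (t : ℝ) : ℂ := ((1 / 3 : ℝ) : ℂ) + (t : ℂ) * Complex.I

lemma zt_im (t : ℝ) : (zt t).im = t := by
  unfold zt
  rw [line_im, Complex.ofReal_im, zero_add]

lemma qq_zt (t : ℝ) : qq (zt t) = ((Real.exp (-2 * Real.pi * t) : ℝ) : ℂ) * om := by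
  unfold qq
  have e : (2 * Real.pi * Complex.I * zt t : ℂ) =
      ((-2 * Real.pi * t : ℝ) : ℂ) + ((2 * Real.pi / 3 : ℝ) : ℂ) * Complex.I := by
    unfold zt
    push_cast
    linear_combination (2 * Real.pi * t : ℂ) * Complex.I_sq
  rw [e, Complex.exp_add, exp_om, Complex.ofReal_exp]

/-- the estimate of the argument -/
lemma phase {r : ℝ} (h0 : 0 < r) (h1 : r ≤ 23 / 50) :
    0 < ((starRingEnd ℂ (Q (r * om))) * Q ((r * om) ^ 7) * om).im := by
  set q : ℂ := (r : ℂ) * om with hq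
  have hn : ‖q‖ = r := by
    rw [hq, norm_mul, om_norm, mul_one, Complex.norm_real, Real.norm_of_nonneg h0.le]
  have hq1 : ‖q‖ < 1 := by rw [hn]; linarith
  have hq7 : ‖q ^ 7‖ = r ^ 7 := by rw [norm_pow, hn]
  have r2 : r ^ 2 ≤ 23 / 100 := by nlinarith
  have r7 : r ^ 7 ≤ 1 / 100 := by
    calc r ^ 7 ≤ (23 / 50) ^ 7 := pow_le_pow_left₀ h0.le h1 7
      _ ≤ _ := by norm_num
  have r70 : 0 < r ^ 7 := by positivity
  have k1 : ‖starRingEnd ℂ (Q2 q) - 1‖ ≤ Real.exp (r ^ 2 / (1 - r)) - 1 := by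
    have h := Q2_sub_one hq1
    rw [hn] at h
    have e : starRingEnd ℂ (Q2 q) - 1 = starRingEnd ℂ (Q2 q - 1) := by
      rw [map_sub, map_one]
    rw [e, Complex.norm_conj]
    exact h
  have k2 : ‖Q (q ^ 7) - 1‖ ≤ Real.exp (r ^ 7 / (1 - r ^ 7)) - 1 := by
    have h := Q_sub_one (q := q ^ 7) (by rw [hq7]; linarith)
    rwa [hq7] at h
  have k := mul_sub_one k1 k2
  have a1 : r ^ 2 / (1 - r) ≤ 44 / 100 := by
    rw [div_le_iff₀ (by linarith)]
    nlinarith
  have a2 : r ^ 7 / (1 - r ^ 7) ≤ 2 / 100 := by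
    rw [div_le_iff₀ (by linarith)]
    nlinarith
  have hE : Real.exp (r ^ 2 / (1 - r) + r ^ 7 / (1 - r ^ 7)) ≤ 8 / 5 := by
    have e1 : Real.exp (r ^ 2 / (1 - r) + r ^ 7 / (1 - r ^ 7)) ≤ Real.exp (46 / 100) :=
      Real.exp_le_exp.2 (by linarith)
    refine e1.trans ?_
    have e2 : Real.exp (46 / 100) = Real.exp (23 / 100) ^ 2 := by
      rw [← Real.exp_nat_mul]
      congr 1
      norm_num
    have e3 : Real.exp (23 / 100) ≤ 63 / 50 := by
      have := Real.exp_bound' (x := 23 / 100) (by norm_num) (by norm_num) (n := 3) (by norm_num)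
      refine this.trans ?_
      norm_num [Finset.sum_range_succ, Nat.factorial]
    rw [e2]
    have h8 := Real.exp_pos (23 / 100)
    nlinarith
  have hω := om_conj_mul
  have e : (starRingEnd ℂ (Q q)) * Q (q ^ 7) * om =
      (om - r) + (om - r) * (starRingEnd ℂ (Q2 q) * Q (q ^ 7) - 1) := by
    have hcq : starRingEnd ℂ q = r * starRingEnd ℂ om := by
      rw [hq, map_mul, Complex.conj_ofReal]
    rw [Q_split hq1, map_mul, map_sub, map_one, hcq]
    linear_combination (-(r : ℂ) * starRingEnd ℂ (Q2 q) * Q (q ^ 7)) * hω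
  have hs : (17 / 10 : ℝ) < Real.sqrt 3 := by
    rw [Real.lt_sqrt (by norm_num)]
    norm_num
  have hnorm : ‖om - (r : ℂ)‖ ≤ 14 / 10 := by
    have h : ‖om - (r : ℂ)‖ ^ 2 = 1 + r + r ^ 2 := by
      rw [← Complex.normSq_eq_norm_sq, Complex.normSq_apply, Complex.sub_re, Complex.sub_im, om_re,
        om_im, Complex.ofReal_re, Complex.ofReal_im]
      have := Real.sq_sqrt (show (0 : ℝ) ≤ 3 by norm_num)
      nlinarith
    have h2 := norm_nonneg (om - (r : ℂ))
    nlinarith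
  rw [e, Complex.add_im, Complex.sub_im, om_im, Complex.ofReal_im, sub_zero]
  have h3 := Complex.abs_im_le_norm ((om - r) * (starRingEnd ℂ (Q2 q) * Q (q ^ 7) - 1))
  rw [norm_mul] at h3
  have h4 : ‖om - (r : ℂ)‖ * ‖starRingEnd ℂ (Q2 q) * Q (q ^ 7) - 1‖ ≤ 14 / 10 * (3 / 5) :=
    mul_le_mul hnorm (k.trans (by linarith)) (norm_nonneg _) (by norm_num)
  have h5 := (abs_le.1 (h3.trans h4)).1
  linarith

lemma real_of_conj {x : ℂ} (h : starRingEnd ℂ x = x) : x.im = 0 := by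
  have := congrArg Complex.im h
  rw [Complex.conj_im] at this
  linarith

lemma Q_real {q : ℂ} (hq : ‖q‖ < 1) (h : starRingEnd ℂ q = q) : starRingEnd ℂ (Q q) = Q q := by
  rw [← Q_conj hq, h]

/-- `X1` is not real on the line `Re z = 1/3` -/
lemma X1_not_real {t : ℝ} (ht : 0 < t) (hr : Real.exp (-2 * Real.pi * t) ≤ 23 / 50) :
    starRingEnd ℂ (X1 (zt t)) ≠ X1 (zt t) := by
  intro hreal
  have hz : 0 < (zt t).im := by rw [zt_im]; exact ht
  set r : ℝ := Real.exp (-2 * Real.pi * t) with hrdef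
  have hr0 : 0 < r := Real.exp_pos _
  have hq : qq (zt t) = (r : ℂ) * om := qq_zt t
  have hq1 := norm_qq_lt hz
  obtain ⟨n1, n3, n7, n21⟩ := Q_nes hz
  have c3 : starRingEnd ℂ (qq (zt t) ^ 3) = qq (zt t) ^ 3 := by
    rw [hq, mul_pow, om_cube, map_mul, map_pow, Complex.conj_ofReal, map_one]
  have c21 : starRingEnd ℂ (qq (zt t) ^ 21) = qq (zt t) ^ 21 := by
    have e : qq (zt t) ^ 21 = (qq (zt t) ^ 3) ^ 7 := by ring
    rw [e, map_pow, c3]
  have hn : ∀ k : ℕ, k ≠ 0 → ‖qq (zt t) ^ k‖ < 1 := fun k hk => by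
    rw [norm_pow]; exact pow_lt_one₀ (norm_nonneg _) hq1 hk
  have r3 := Q_real (hn 3 (by norm_num)) c3
  have r21 := Q_real (hn 21 (by norm_num)) c21
  have h1 := X1_q hz
  unfold xi at h1
  set q := qq (zt t) with hqdef
  have hq0 : q ≠ 0 := qq_ne _
  have hrc : (r : ℂ) ≠ 0 := by exact_mod_cast hr0.ne'
  -- the number of `phase`
  have h2 : (starRingEnd ℂ (Q q)) * Q (q ^ 7) * om =
      X1 (zt t) * (starRingEnd ℂ (Q q) * Q q) * (r : ℂ) ^ 2 * Q (q ^ 21) ^ 3 * (Q (q ^ 3) ^ 3)⁻¹ := by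
    have e2 : q ^ 2 * om = (r : ℂ) ^ 2 := by
      rw [hq, mul_pow, mul_assoc, ← pow_succ, om_cube, mul_one]
    rw [h1]
    field_simp
    linear_combination (starRingEnd ℂ (Q q)) * e2
  have h3 := phase hr0 hr
  rw [← hq, h2] at h3
  have h4 : (X1 (zt t) * (starRingEnd ℂ (Q q) * Q q) * (r : ℂ) ^ 2 * Q (q ^ 21) ^ 3 *
      (Q (q ^ 3) ^ 3)⁻¹).im = 0 := by
    apply real_of_conj
    simp only [map_mul, map_pow, map_inv₀, hreal, r3, r21, Complex.conj_ofReal, Complex.conj_conj]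
    ring
  rw [h4] at h3
  exact lt_irrefl 0 h3

/-- `F` is not real on the line `Re z = 1/3` -/
lemma F_not_real {t : ℝ} (ht : 0 < t) (hr : Real.exp (-2 * Real.pi * t) ≤ 23 / 50) :
    (F (zt t)).im ≠ 0 := by
  intro h0
  have hz : 0 < (zt t).im := by rw [zt_im]; exact ht
  obtain ⟨L, Op, Om, -, -, g2, g3, -⟩ := Run7.h209.P21.m_lat
  have hc : starRingEnd ℂ (F (zt t)) = F (zt t) := by
    apply Complex.ext
    · rw [Complex.conj_re]
    · rw [Complex.conj_im, h0, neg_zero]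
  have h1 := (wp_F L g2 g3 (zt t) hz).2
  have h2 := (wp_F L g2 g3 _ (neg_conj_im hz)).2
  rw [F_conj hz, hc, h1, X1_conj hz] at h2
  exact X1_not_real ht hr (add_right_cancel h2).symm

lemma zt_cont : Continuous zt := by
  unfold zt
  fun_prop

lemma F_zt_cont : ContinuousOn (fun t : ℝ => (F (zt t)).im) (Ioi 0) := by
  refine Complex.continuous_im.comp_continuousOn (F_cont.comp zt_cont.continuousOn ?_)
  intro t ht
  change 0 < (zt t).im
  rw [zt_im]
  exact ht

/-- the sign far up -/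
lemma F_zt_top : ∀ᶠ t : ℝ in atTop, 0 < (F (zt t)).im := by
  have h1 : HasDerivAt Phi 1 0 := by
    have := Phi_deriv (q := 0) (by simp)
    rwa [phi_zero] at this
  have h2 := h1.isLittleO
  rw [Asymptotics.isLittleO_iff] at h2
  have h3 := @h2 (1 / 4) (by norm_num)
  have h4 : Tendsto (fun t : ℝ => qq (zt t)) atTop (𝓝 0) := by
    refine tendsto_qq.comp ?_
    unfold iI
    rw [tendsto_comap_iff]
    have : Complex.im ∘ zt = fun t => t := by
      ext t; exact zt_im t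
    rw [this]
    exact tendsto_id
  filter_upwards [h4.eventually h3] with t ht
  rw [Phi_zero, sub_zero, sub_zero, smul_eq_mul, mul_one] at ht
  have h5 := Complex.abs_im_le_norm (Phi (qq (zt t)) - qq (zt t))
  have h6 := (abs_le.1 (h5.trans ht)).1
  rw [Complex.sub_im] at h6
  set r : ℝ := Real.exp (-2 * Real.pi * t) with hrdef
  have hr0 : 0 < r := Real.exp_pos _
  have hq : qq (zt t) = (r : ℂ) * om := qq_zt t
  have h7 : (qq (zt t)).im = r * (Real.sqrt 3 / 2) := by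
    rw [hq, Complex.im_ofReal_mul, om_im]
  have h8 : ‖qq (zt t)‖ = r := by
    rw [hq, norm_mul, om_norm, mul_one, Complex.norm_real, Real.norm_of_nonneg hr0.le]
  rw [h7, h8] at h6
  have hs : (17 / 10 : ℝ) < Real.sqrt 3 := by
    rw [Real.lt_sqrt (by norm_num)]
    norm_num
  have h9 : (F (zt t)).im = (Phi (qq (zt t))).im := rfl
  rw [h9]
  nlinarith

/-- the sign -/
lemma F_zt_pos {t : ℝ} (ht : 0 < t) (hr : Real.exp (-2 * Real.pi * t) ≤ 23 / 50) :
    0 < (F (zt t)).im := by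
  obtain ⟨T, hT⟩ := (F_zt_top.and (eventually_ge_atTop t)).exists
  by_contra hneg
  push Not at hneg
  have hc : ContinuousOn (fun t : ℝ => (F (zt t)).im) (Icc t T) :=
    F_zt_cont.mono fun s hs => lt_of_lt_of_le ht hs.1
  obtain ⟨s, hs, h0⟩ := intermediate_value_Icc hT.2 hc ⟨hneg, hT.1.le⟩
  refine F_not_real (lt_of_lt_of_le ht hs.1) ?_ h0
  refine le_trans (Real.exp_le_exp.2 ?_) hr
  have := Real.pi_pos
  nlinarith [hs.1]

/-! ### the Atkin-Lehner map `W₇` -/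

lemma X1_m7_sq {z : ℂ} (hz : 0 < z.im) : X1 (m7 z) ^ 2 = (7 / X1 z) ^ 2 := by
  obtain ⟨n1, n3, n7, n21⟩ := Q_nes hz
  have h1 := X1_q hz
  have h2 := X1_w7 hz
  have hq0 := qq_ne z
  unfold m7
  rw [h2, h1]
  unfold xi
  field_simp
  norm_num

lemma V1_m7 {z : ℂ} (hz : 0 < z.im) : V1 (m7 z) = -7 * V1 z / X1 z ^ 2 := by
  obtain ⟨n1, n3, n7, n21⟩ := Q_nes hz
  have h1 := X1_q hz
  have h2 := V1_w7 hz
  have h3 := V1_q hz
  have hq0 := qq_ne z
  unfold m7
  rw [h2, h1, h3]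
  unfold xi ups
  field_simp

lemma RR_m7 {z : ℂ} (hz : 0 < z.im) : RR (m7 z) = -7 * RR z / X1 z ^ 2 := by
  have h0 := X1_ne hz
  unfold RR Y1
  rw [V1_m7 hz, X1_m7_sq hz]
  field_simp
  ring

lemma X1_m7 : ∀ z : ℂ, 0 < z.im → X1 (m7 z) = 7 / X1 z := by
  have hc : ContinuousOn (fun z => X1 (m7 z)) {z : ℂ | 0 < z.im} :=
    comp_cont cusp7.pos cusp7.der X1_cont
  have hc' : ContinuousOn (fun z => 7 / X1 z) {z : ℂ | 0 < z.im} :=
    continuousOn_const.div X1_cont fun z hz => X1_ne hz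
  rcases eq_or_eq_neg hc hc' (fun z hz => X1_m7_sq hz)
    (fun z hz => div_ne_zero (by norm_num) (X1_ne hz)) with h | h
  · exact h
  · exfalso
    have h1 : ∀ z : ℂ, 0 < z.im → X1 z ^ 2 + 7 = 0 := by
      intro z hz
      have h2 := RR_sq hcp hqe hz
      have h3 := RR_sq hcp hqe (cusp7.pos z hz)
      have h4 : X1 (m7 z) = -(7 / X1 z) := h z hz
      have h0 := X1_ne hz
      rw [RR_m7 hz, h4] at h3
      field_simp at h3
      have h5 : X1 z * (X1 z ^ 2 + 7) = 0 := by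
        linear_combination (1 / 56 : ℂ) * h3 - (1 / 8 : ℂ) * h2
      exact (mul_eq_zero.1 h5).resolve_left h0
    have h2 := ((((isCusp21 hcp hqe).X.pow 2).add (QV.const 7)).of_eq (f := fun _ => 0)
      (iI_pos.mono fun z hz => (h1 _ ((isCusp21 hcp hqe).pos z hz)).symm)).val_unique (QV.const 0)
    norm_num at h2

/-- `f | W₇ = f` -/
lemma ff_m7 {z : ℂ} (hz : 0 < z.im) : ff (m7 z) * j7 z = ff z := by
  have h0 := X1_ne hz
  have hm := cusp7.pos z hz
  have h3 := tpi_ne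
  -- the derivative of `X1 ∘ m7`
  have d1 : HasDerivAt (X1 ∘ m7) (deriv X1 (m7 z) * j7 z) z :=
    (X1_diff hm).hasDerivAt.comp z (cusp7.der z hz)
  have d2 : HasDerivAt (fun z => 7 / X1 z) (-(7 * deriv X1 z) / X1 z ^ 2) z := by
    have := (hasDerivAt_const z (7 : ℂ)).div (X1_diff hz).hasDerivAt h0
    refine this.congr_deriv ?_
    ring
  have e1 : (X1 ∘ m7) =ᶠ[𝓝 z] fun z => 7 / X1 z := by
    filter_upwards [H_open.mem_nhds hz] with w hw
    exact X1_m7 w hw
  have u1 := d1.unique (d2.congr_of_eventuallyEq e1)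
  -- the derivative of `RR ∘ m7`
  have d3 : HasDerivAt (RR ∘ m7) (deriv RR (m7 z) * j7 z) z :=
    (RR_diff hm).hasDerivAt.comp z (cusp7.der z hz)
  have d4 : HasDerivAt (fun z => -7 * RR z / X1 z ^ 2)
      (-7 * deriv RR z / X1 z ^ 2 + 14 * RR z * deriv X1 z / X1 z ^ 3) z := by
    have := ((RR_diff hz).hasDerivAt.const_mul (-7)).div ((X1_diff hz).hasDerivAt.pow 2)
      (pow_ne_zero 2 h0)
    refine this.congr_deriv ?_
    simp only [Pi.pow_apply]
    push_cast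
    field_simp
    ring
  have e2 : (RR ∘ m7) =ᶠ[𝓝 z] fun z => -7 * RR z / X1 z ^ 2 := by
    filter_upwards [H_open.mem_nhds hz] with w hw
    exact RR_m7 hw
  have u2 := d3.unique (d4.congr_of_eventuallyEq e2)
  have f1 := ff_mul_R hcp hqe hz
  have f2 := ff_mul_D hcp hqe hz
  have f3 := ff_mul_R hcp hqe hm
  have f4 := ff_mul_D hcp hqe hm
  have hsq := RR_sq hcp hqe hz
  rw [← f3, ← f1, RR_m7 hz] at u1
  rw [X1_m7 z hz] at f4
  set D : ℂ := ff (m7 z) * j7 z - ff z with hD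
  have hDR : D * RR z = 0 := by
    rw [hD]
    field_simp at u1
    linear_combination (-1 : ℂ) * u1
  have hDS : D * (2 * X1 z ^ 2 - 23 * X1 z + 42) = 0 := by
    have : 2 * Real.pi * Complex.I * (14 * (D * (2 * X1 z ^ 2 - 23 * X1 z + 42))) = 0 := by
      have g1 : 2 * Real.pi * Complex.I * (ff (m7 z) * j7 z) *
          (12 * (7 / X1 z) ^ 2 - 46 * (7 / X1 z) + 28) =
          2 * (-7 * deriv RR z / X1 z ^ 2 + 14 * RR z * deriv X1 z / X1 z ^ 3) := by
        rw [← u2]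
        linear_combination j7 z * f4
      have g2 : 2 * Real.pi * Complex.I * (ff (m7 z) * j7 z) *
          (588 - 322 * X1 z + 28 * X1 z ^ 2) * X1 z =
          (-14 * deriv RR z * X1 z + 28 * RR z * deriv X1 z) := by
        have := congrArg (fun x => x * X1 z ^ 3) g1
        field_simp at this ⊢
        linear_combination 2 * this
      have g3 : X1 z * (2 * Real.pi * Complex.I * (14 * (D * (2 * X1 z ^ 2 - 23 * X1 z + 42)))) = 0 := by
        rw [hD]
        linear_combination g2 + 7 * X1 z * f2 - 28 * RR z * f1 +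
          (56 * Real.pi * Complex.I * ff z) * hsq
      exact (mul_eq_zero.1 g3).resolve_left h0
    have h7 := (mul_eq_zero.1 this).resolve_left h3
    exact (mul_eq_zero.1 h7).resolve_left (by norm_num)
  have hDP : D * (4 * X1 z ^ 2 - 23 * X1 z + 28) = 0 := by
    have : X1 z * (D * (4 * X1 z ^ 2 - 23 * X1 z + 28)) = 0 := by
      linear_combination RR z * hDR - D * hsq
    exact (mul_eq_zero.1 this).resolve_left h0
  have hD0 : D = 0 := by
    linear_combination (-(529 / 1134 : ℂ)) * (hDS - (2 * X1 z / 23 - 417 / 529) * (hDP - 2 * hDS))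
  exact sub_eq_zero.1 hD0

lemma F_m7 : ∃ C : ℂ, ∀ z : ℂ, 0 < z.im → F (m7 z) = F z + C := by
  obtain ⟨C, hC⟩ := const_of_deriv (g := fun z => F (m7 z) - F z) fun z hz => by
    have h1 := ((F_deriv (cusp7.pos z hz)).comp z (cusp7.der z hz)).sub (F_deriv hz)
    refine h1.congr_deriv ?_
    rw [mul_assoc, ff_m7 hz, sub_self]
  exact ⟨C, fun z hz => by linear_combination hC z hz⟩

/-- the height -/
noncomputable def t0 : ℝ := 1 / (3 * Real.sqrt 7)

lemma t0_pos : 0 < t0 := by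
  unfold t0
  positivity

lemma t0_sq : t0 ^ 2 = 1 / 63 := by
  unfold t0
  rw [div_pow, mul_pow, Real.sq_sqrt (by norm_num)]
  norm_num

lemma exp_t0 : Real.exp (-2 * Real.pi * t0) ≤ 23 / 50 := by
  have h5 : Real.sqrt 7 < 265 / 100 := by
    rw [Real.sqrt_lt' (by norm_num)]
    norm_num
  have h5p : 0 < Real.sqrt 7 := by positivity
  have hpi := Real.pi_gt_d2
  have h1 : (789 / 1000 : ℝ) ≤ 2 * Real.pi * t0 := by
    unfold t0
    rw [mul_one_div, le_div_iff₀ (by positivity)]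
    nlinarith
  have h2 : (50 / 23 : ℝ) ≤ Real.exp (789 / 1000) := by
    have := Real.sum_le_exp_of_nonneg (x := 789 / 1000) (by norm_num) 6
    refine le_trans ?_ this
    norm_num [Finset.sum_range_succ, Nat.factorial]
  have h3 : Real.exp (-2 * Real.pi * t0) = (Real.exp (2 * Real.pi * t0))⁻¹ := by
    rw [← Real.exp_neg]
    congr 1
    ring
  rw [h3]
  have h4 : (50 / 23 : ℝ) ≤ Real.exp (2 * Real.pi * t0) := h2.trans (Real.exp_le_exp.2 h1)
  rw [inv_le_comm₀ (Real.exp_pos _) (by norm_num)]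
  linarith

lemma kappa_F : kappa = 4 * (F (zt t0)).im := by
  obtain ⟨C, hC⟩ := F_m7
  have hz0 : 0 < (zt t0).im := by rw [zt_im]; exact t0_pos
  have ht2 : ((t0 : ℝ) : ℂ) ^ 2 = 1 / 63 := by
    have : ((t0 ^ 2 : ℝ) : ℂ) = ((1 / 63 : ℝ) : ℂ) := by rw [t0_sq]
    push_cast at this
    exact this
  have ht0 : ((t0 : ℝ) : ℂ) ≠ 0 := by exact_mod_cast t0_pos.ne'
  -- the constant
  have e1 : m7 (-(starRingEnd ℂ (zt t0))) = zt t0 := by
    unfold m7 zt
    rw [map_add, map_mul, Complex.conj_ofReal, Complex.conj_ofReal, Complex.conj_I]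
    have e : (21 * -(((1 / 3 : ℝ) : ℂ) + (t0 : ℂ) * -Complex.I) + 7 : ℂ) = 21 * t0 * Complex.I := by
      push_cast; ring
    rw [e, div_eq_iff (by
      refine mul_ne_zero (mul_ne_zero (by norm_num) ht0) Complex.I_ne_zero)]
    push_cast
    linear_combination (21 : ℂ) * ht2 + (-(21 * (t0 : ℂ) ^ 2)) * Complex.I_sq
  have h1 := hC _ (neg_conj_im hz0)
  rw [e1, F_conj hz0] at h1
  have h2 : C.im = 2 * (F (zt t0)).im := by
    have := congrArg Complex.im h1
    rw [Complex.add_im, Complex.conj_im] at this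
    linarith
  -- the line `Re z = -1/2`
  set w : ℂ := ((-(1 / 2) : ℝ) : ℂ) + ((1 / 6 : ℝ) : ℂ) * Complex.I with hw
  have hwp : 0 < w.im := by rw [hw, line_im, Complex.ofReal_im]; norm_num
  have hwF : (F w).im = 0 := by
    have h3 := F_conj hwp
    have h4 : -(starRingEnd ℂ) w = w + 1 := by
      rw [hw, map_add, map_mul, Complex.conj_ofReal, Complex.conj_ofReal, Complex.conj_I]
      push_cast
      ring
    rw [h4, F_add_one] at h3
    exact real_of_conj h3.symm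
  set v : ℂ := ((8 / 21 : ℝ) : ℂ) + ((1 / 21 : ℝ) : ℂ) * Complex.I with hv
  have hvp : 0 < v.im := by rw [hv, line_im, Complex.ofReal_im]; norm_num
  have e2 : m7 w = v := by
    unfold m7
    have h0 : (21 * w + 7 : ℂ) ≠ 0 := by
      intro h
      have := congrArg Complex.im h
      rw [hw] at this
      simp at this
    rw [div_eq_iff h0, hw, hv]
    push_cast
    linear_combination (-(1 / 6) : ℂ) * Complex.I_sq
  have h3 := hC w hwp
  rw [e2] at h3
  have h4 : (F v).im = C.im := by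
    rw [h3, Complex.add_im, hwF, zero_add]
  -- the matrix
  have h5 := per_spec (a := 8) (b := 3) (c := 1) (d := 8) (by norm_num) (neg_conj_im hvp)
  have e3 : (((8 : ℤ) : ℂ) * (-(starRingEnd ℂ v)) + ((3 : ℤ) : ℂ)) /
      (21 * ((1 : ℤ) : ℂ) * (-(starRingEnd ℂ v)) + ((8 : ℤ) : ℂ)) = v := by
    rw [hv, map_add, map_mul, Complex.conj_ofReal, Complex.conj_ofReal, Complex.conj_I]
    have h0 : (21 * ((1 : ℤ) : ℂ) * -(((8 / 21 : ℝ) : ℂ) + ((1 / 21 : ℝ) : ℂ) * -Complex.I) +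
        ((8 : ℤ) : ℂ)) = Complex.I := by
      push_cast; ring
    rw [h0, div_eq_iff Complex.I_ne_zero]
    push_cast
    linear_combination (-(1 / 21) : ℂ) * Complex.I_sq
  rw [e3, F_conj hvp] at h5
  have h6 := congrArg Complex.im h5
  rw [Complex.add_im, Complex.conj_im, h4, h2] at h6
  unfold kappa hI
  linarith

/-- **the constant is positive** -/
theorem kappa_pos : 0 < kappa := by
  rw [kappa_F]
  have := F_zt_pos t0_pos exp_t0
  linarith

end Pool.Agent.Run7.h843.P21.MS
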