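import Pool.Agent.Run7.h843.P21.Sym

/-!
The integrals from the rational numbers in the class of the cusp `0`, and the constant
(after `Run7/h741/MF/Sym2.lean`).
-/

set_option autoImplicit false

open Filter Topology MeasureTheory Set

namespace Pool.Agent.Run7.h843.P21.MS

open Pool.Agent.W97.TW
open Pool.Agent.W97.MT (qq qq_ne norm_qq norm_qq_lt im_mul z_ne H_open QV iI iI_pos iI_eventually
  tendsto_qq S_QEXP S_INJ S_ODE S_SUB hasDerivAt_qq tpi_ne line_im line_re inv_I im_aux frac_aux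
  qq_conj)
open Pool.Agent.Run7.h741.MG
open Pool.Agent.Run7.h741.MF (hqe)
open Pool.Agent.Run7.h843.P21.Lk (Hm hom_eq Fp_cusp0)
open Pool.Agent.Run7.h843.P21 (Fp)

/-- the path of `hit21` -/
lemma hit21_id {a c w y : ℤ} (hc : 0 < c) (h : 21 * a * w - c * y = 1) (s : ℝ) (hs : 0 < s) :
    (((-y : ℤ) : ℂ) * m21 (((-w / c : ℝ) : ℂ) + s * Complex.I) + a) /
      (21 * ((-w : ℤ) : ℂ) * m21 (((-w / c : ℝ) : ℂ) + s * Complex.I) + c) =
      (a : ℂ) / c + (((21 * (c : ℝ) ^ 2) * s)⁻¹ : ℝ) * Complex.I := by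
  have hs' : (s : ℂ) ≠ 0 := by exact_mod_cast hs.ne'
  have hc' : (c : ℂ) ≠ 0 := by exact_mod_cast hc.ne'
  have h' : (21 : ℂ) * a * w - c * y = 1 := by exact_mod_cast h
  rw [inv_I _ _ hs.ne']
  have hz : 0 < (-(w : ℂ) / c + s * Complex.I).im := by
    have : -(w : ℂ) / c = ((-w / c : ℝ) : ℂ) := by push_cast; ring
    rw [this]; simpa using hs
  have hz0 : (-(w : ℂ) / c + s * Complex.I) ≠ 0 := fun h0 => by rw [h0] at hz; simp at hz
  have hu : (s : ℂ) * Complex.I ≠ 0 := mul_ne_zero hs' Complex.I_ne_zero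
  unfold m21
  push_cast
  set u : ℂ := (s : ℂ) * Complex.I with hu'
  have hz1 : -(w : ℂ) + c * u ≠ 0 := by
    intro h0
    apply hz0
    field_simp
    linear_combination h0
  have e1 : (21 : ℂ) * -w * (-1 / (21 * (-(w : ℂ) / c + u))) + c = c * c * u / (-(w : ℂ) + c * u) := by
    field_simp
    ring
  have e2 : -(y : ℂ) * (-1 / (21 * (-(w : ℂ) / c + u))) + a = (c * y + 21 * a * (-w + c * u)) /
      (21 * (-(w : ℂ) + c * u)) := by
    field_simp
  rw [e1, e2]
  field_simp
  linear_combination -h'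

/-- the value at the cusp `0` -/
noncomputable def C0 : ℂ := (exists_limit (isCusp21 hcp hqe).map).choose

lemma C0_lim : Tendsto (fun z => F (m21 z)) iI (𝓝 C0) :=
  (exists_limit (isCusp21 hcp hqe).map).choose_spec

lemma II_eq {a c w y : ℤ} (hc : 0 < c) (h : 21 * a * w - c * y = 1) :
    II ((a : ℚ) / c) = C0 + per (-y) a (-w) c := by
  have h1 := (hit_per (isCusp21 hcp hqe).map (r := (a : ℂ) / c) C0_lim
    (by
      have : (a : ℂ) / c = (((a : ℝ) / c : ℝ) : ℂ) := by push_cast; rfl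
      rw [this]; exact Complex.ofReal_im _) (a := -y) (b := a) (c := -w) (d := c)
    (K := 21 * (c : ℝ) ^ 2) (x := -w / c)
    (by linarith) (by positivity) (fun s hs => hit21_id hc h s hs)).2.2
  rw [← h1]
  unfold II
  congr 1
  push_cast
  rfl

lemma per_one : per 1 0 0 1 = 0 := by
  refine per_eq (by norm_num) I_pos ?_
  simp

lemma II_zero : II 0 = C0 := by
  have h := II_eq (a := 0) (c := 1) (w := 0) (y := -1) (by norm_num) (by norm_num)
  rw [neg_neg, neg_zero, per_one, add_zero] at h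
  rw [← h]
  congr 1
  norm_num

lemma II_conj (r : ℚ) : II (-r) = starRingEnd ℂ (II r) := by
  unfold II
  rw [map_mul, ← integral_conj, conj_tpi]
  congr 1
  refine setIntegral_congr_fun measurableSet_Ioi fun t ht => ?_
  have ht' : 0 < t := ht
  rw [← ff_conj (by rw [line_im]; simpa using ht')]
  congr 1
  simp only [map_add, map_mul, Complex.conj_I, Complex.conj_ofReal]
  have : (starRingEnd ℂ) ((r : ℚ) : ℂ) = r := by
    have e : ((r : ℚ) : ℂ) = (((r : ℚ) : ℝ) : ℂ) := by push_cast; rfl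
    rw [e]; exact Complex.conj_ofReal _
  rw [this]
  push_cast
  ring

lemma C0_im : C0.im = 0 := by
  have h := II_conj 0
  rw [neg_zero, II_zero] at h
  have := congrArg Complex.im h
  rw [Complex.conj_im] at this
  linarith

/-- **the imaginary part of the modular symbols from the cusps of the class of `0`** -/
theorem II_im {u n : ℤ} (hn : 0 < n) (hun : IsCoprime u n) (h3 : IsCoprime n 21) :
    (II ((u : ℚ) / n)).im = kappa * (Fp u n : ℝ) := by
  have h1 : IsCoprime (21 * u) n := (h3.symm).mul_left hun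
  obtain ⟨w, y, hwy⟩ := h1
  have hdet : 21 * u * w - n * (-y) = 1 := by linarith
  have h2 := II_eq hn hdet
  rw [h2, Complex.add_im, C0_im, zero_add]
  have h4 : (-(-y)) * n - u * (21 * (-w)) = 1 := by linarith
  have h5 := hI_eq h4
  unfold hI at h5
  rw [h5, ← Fp_cusp0 h4]

/-- the constant is nonzero: with the lattice of periods `ℤ Ω⁺ + ℤ i Ω⁻` it is `± Ω⁻` -/
theorem kappa_eq {L : PeriodPair} {Op Om : ℝ} (g2 : L.g₂ = 193 / 12) (g3 : L.g₃ = 575 / 216)
    (hOm : 0 < Om)
    (hL : ∀ w : ℂ, w ∈ L.lattice ↔ ∃ a b : ℤ, w = a * Op + b * Om * Complex.I) :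
    kappa = Om ∨ kappa = -Om := by
  have hopt := optimal L g2 g3
  -- `i Ω⁻` is a period
  have h1 : IsPer ((Om : ℂ) * Complex.I) := by
    rw [← hopt]
    exact (hL _).2 ⟨0, 1, by push_cast; ring⟩
  obtain ⟨a, b, c, d, hdet, hp⟩ := h1
  have h2 : per a b c d = (Om : ℂ) * Complex.I := per_eq hdet I_pos (hp _ I_pos)
  have h3 := hI_eq hdet
  unfold hI at h3
  rw [h2] at h3
  have h4 : ((Om : ℂ) * Complex.I).im = Om := by simp
  rw [h4] at h3
  -- the constant is an integer multiple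
  have h5 : per 8 3 1 8 ∈ L.lattice := by
    rw [hopt]
    exact ⟨8, 3, 1, 8, by norm_num, fun z hz => per_spec (by norm_num) hz⟩
  obtain ⟨x, y, hxy⟩ := (hL _).1 h5
  have h6 : kappa = y * Om := by
    unfold kappa hI
    rw [hxy]
    simp
  rw [h6] at h3 ⊢
  have h7 : (y : ℝ) * (Fp a (21 * c) : ℝ) = 1 := by
    have : Om * ((y : ℝ) * (Fp a (21 * c) : ℝ)) = Om * 1 := by linarith
    exact mul_left_cancel₀ hOm.ne' this
  have h8 : y * Fp a (21 * c) = 1 := by exact_mod_cast h7
  rcases Int.eq_one_or_neg_one_of_mul_eq_one h8 with h | h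
  · left; rw [h]; simp
  · right; rw [h]; simp

end Pool.Agent.Run7.h843.P21.MS
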