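import Mathlib
import Pool.Agent.Run7.h843.P21.Defs

/-!
# Port to level `21` of `Run7/h741/P15/Ev.lean` (helper741): `Fp` as a homomorphism on `Γ₀(21)`: the crossing numbers of the vertical lines with the geodesics
of the forms of discriminant `4`
-/

set_option autoImplicit false

namespace Pool.Agent.Run7.h843.P21.Lk

open Finset
open Pool.Agent.Run7.h843.P21 (Fm cQ Fp)

/-- the value of a form -/
def ev (q : ℤ × ℤ × ℤ) (x M : ℤ) : ℤ := q.1 * x ^ 2 + q.2.1 * x * M + q.2.2 * M ^ 2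

/-- the points which are not the end of a geodesic of our forms -/
def Ok (x M : ℤ) : Prop := ∀ q, Fm q → ev q x M ≠ 0

/-- the half of the middle coefficient -/
lemma Fm_half {q : ℤ × ℤ × ℤ} (h : Fm q) : ∃ b, q.2.1 = 2 * b ∧ (b % 21 = 8 ∨ b % 21 = 13) := by
  obtain ⟨-, -, h3⟩ := h
  refine ⟨q.2.1 / 2, ?_, ?_⟩ <;> omega

lemma Fm_a {q : ℤ × ℤ × ℤ} (h : Fm q) : q.1 ≠ 0 := by
  intro h0
  obtain ⟨b, hb, hb'⟩ := Fm_half h
  obtain ⟨h1, -, -⟩ := h
  rw [h0, hb] at h1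
  have h2 : (b - 1) * (b + 1) = 0 := by linarith
  rcases mul_eq_zero.1 h2 with h | h <;> omega

lemma Fm_c {q : ℤ × ℤ × ℤ} (h : Fm q) : q.2.2 ≠ 0 := by
  intro h0
  obtain ⟨b, hb, hb'⟩ := Fm_half h
  obtain ⟨h1, -, -⟩ := h
  rw [h0, hb] at h1
  have h2 : (b - 1) * (b + 1) = 0 := by linarith
  rcases mul_eq_zero.1 h2 with h | h <;> omega

lemma ev_inf (q : ℤ × ℤ × ℤ) : ev q 1 0 = q.1 := by unfold ev; ring

lemma Ok_inf : Ok 1 0 := fun q hq => by rw [ev_inf]; exact Fm_a hq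

/-- a root of a form -/
lemma root {q : ℤ × ℤ × ℤ} (h : Fm q) {x M b : ℤ} (hb : q.2.1 = 2 * b) (h0 : ev q x M = 0) :
    q.1 * x = -(b - 1) * M ∨ q.1 * x = -(b + 1) * M := by
  obtain ⟨h1, -, -⟩ := h
  unfold ev at h0
  have h2 : (q.1 * x + (b - 1) * M) * (q.1 * x + (b + 1) * M) = 0 := by
    rw [hb] at h1 h0
    have e : (q.1 * x + (b - 1) * M) * (q.1 * x + (b + 1) * M) =
        q.1 * (q.1 * x ^ 2 + 2 * b * x * M + q.2.2 * M ^ 2) +
        (b ^ 2 - 1 - q.1 * q.2.2) * M ^ 2 := by ring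
    rw [e, h0]
    have : b ^ 2 - 1 - q.1 * q.2.2 = 0 := by linarith
    rw [this]; ring
  rcases mul_eq_zero.1 h2 with h | h
  · left; linarith
  · right; linarith

/-- points with denominator prime to `21` -/
lemma Ok_of_coprime {x M : ℤ} (hM : IsCoprime M 21) : Ok x M := by
  intro q hq h0
  obtain ⟨b, hb, hb'⟩ := Fm_half hq
  have hA : (21 : ℤ) ∣ q.1 := hq.2.1
  rcases root hq hb h0 with h | h
  · have h1 : (21 : ℤ) ∣ M * (b - 1) := by
      have := hA.mul_right x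
      rw [h] at this
      have h2 := (dvd_neg (α := ℤ)).2 this
      rwa [show -(-(b - 1) * M) = M * (b - 1) by ring] at h2
    have h2 := hM.symm.dvd_of_dvd_mul_left h1
    omega
  · have h1 : (21 : ℤ) ∣ M * (b + 1) := by
      have := hA.mul_right x
      rw [h] at this
      have h2 := (dvd_neg (α := ℤ)).2 this
      rwa [show -(-(b + 1) * M) = M * (b + 1) by ring] at h2
    have h2 := hM.symm.dvd_of_dvd_mul_left h1
    omega

/-- points with denominator divisible by `21` -/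
lemma Ok_of_dvd {x M : ℤ} (hM : 21 ∣ M) (hx : IsCoprime x 21) : Ok x M := by
  intro q hq h0
  obtain ⟨b, hb, hb'⟩ := Fm_half hq
  have hD : q.2.1 ^ 2 - 4 * q.1 * q.2.2 = 4 := hq.1
  rw [hb] at hD
  have hAC : q.1 * q.2.2 = (b - 1) * (b + 1) := by linarith
  rcases root hq hb h0 with h | h
  · have h1 : (b - 1) * (x * (b + 1)) = (b - 1) * (-(M * q.2.2)) := by
      have : q.2.2 * (q.1 * x) = q.2.2 * (-(b - 1) * M) := by rw [h]
      linear_combination this - x * hAC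
    have h2 := mul_left_cancel₀ (by omega : b - 1 ≠ 0) h1
    have h3 : (21 : ℤ) ∣ x * (b + 1) := by
      rw [h2]; exact (dvd_neg (α := ℤ)).2 (hM.mul_right _)
    have h4 := hx.symm.dvd_of_dvd_mul_left h3
    omega
  · have h1 : (b + 1) * (x * (b - 1)) = (b + 1) * (-(M * q.2.2)) := by
      have : q.2.2 * (q.1 * x) = q.2.2 * (-(b + 1) * M) := by rw [h]
      linear_combination this - x * hAC
    have h2 := mul_left_cancel₀ (by omega : b + 1 ≠ 0) h1
    have h3 : (21 : ℤ) ∣ x * (b - 1) := by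
      rw [h2]; exact (dvd_neg (α := ℤ)).2 (hM.mul_right _)
    have h4 := hx.symm.dvd_of_dvd_mul_left h3
    omega

/-! ### finiteness -/

/-- the forms separating `∞` and `x/M` -/
def SS (x M : ℤ) : Set (ℤ × ℤ × ℤ) := {q | Fm q ∧ Int.sign q.1 ≠ Int.sign (ev q x M)}

lemma four_ev {q : ℤ × ℤ × ℤ} (h : Fm q) (x M : ℤ) :
    4 * (q.1 * ev q x M) = (2 * q.1 * x + q.2.1 * M) ^ 2 - 4 * M ^ 2 := by
  obtain ⟨h1, -, -⟩ := h
  unfold ev
  linear_combination (-M ^ 2) * h1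

lemma mul_neg_of_sign {a b : ℤ} (ha : a ≠ 0) (hb : b ≠ 0) (h : Int.sign a ≠ Int.sign b) :
    a * b ≤ -1 := by
  rcases lt_or_gt_of_ne ha with h1 | h1 <;> rcases lt_or_gt_of_ne hb with h2 | h2
  · exact absurd (by rw [Int.sign_eq_neg_one_of_neg h1, Int.sign_eq_neg_one_of_neg h2]) h
  · have := mul_neg_of_neg_of_pos h1 h2; omega
  · have := mul_neg_of_pos_of_neg h1 h2; omega
  · exact absurd (by rw [Int.sign_eq_one_of_pos h1, Int.sign_eq_one_of_pos h2]) h

lemma SS_finite {x M : ℤ} (hok : Ok x M) : (SS x M).Finite := by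
  set K : ℤ := (2 * |M| + 2 * M ^ 2 * |x|) ^ 2 + 2 * |M| + 2 * M ^ 2 * |x| + M ^ 2 + 1 with hK
  refine ((Set.finite_Icc (-K) K).prod ((Set.finite_Icc (-K) K).prod
    (Set.finite_Icc (-K) K))).subset ?_
  rintro q ⟨hq, hs⟩
  have ha := Fm_a hq
  have he := hok q hq
  have h1 := mul_neg_of_sign ha he hs
  have h4 := four_ev hq x M
  have hM2 : |q.1| ≤ M ^ 2 := by
    have h5 : |q.1| * |ev q x M| ≤ M ^ 2 := by
      rw [← abs_mul, abs_of_nonpos (by omega)]
      nlinarith [sq_nonneg (2 * q.1 * x + q.2.1 * M)]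
    have h6 : 1 ≤ |ev q x M| := Int.one_le_abs he
    nlinarith [abs_nonneg q.1]
  have hM0 : M ≠ 0 := by
    rintro rfl
    have : 0 < |q.1| := abs_pos.2 ha
    norm_num at hM2
    omega
  have hMa : 1 ≤ |M| := Int.one_le_abs hM0
  have h7 : |2 * q.1 * x + q.2.1 * M| ≤ 2 * |M| := by
    apply abs_le_of_sq_le_sq' _ (by positivity) |> fun h => abs_le.2 h
    rw [mul_pow, sq_abs]
    nlinarith
  have h8 : |q.2.1| ≤ 2 * |M| + 2 * M ^ 2 * |x| := by
    have h9 : |q.2.1 * M| ≤ |2 * q.1 * x + q.2.1 * M| + |2 * q.1 * x| := by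
      have : q.2.1 * M = (2 * q.1 * x + q.2.1 * M) - 2 * q.1 * x := by ring
      calc |q.2.1 * M| = |(2 * q.1 * x + q.2.1 * M) - 2 * q.1 * x| := by rw [← this]
        _ ≤ _ := abs_sub _ _
    have h10 : |2 * q.1 * x| ≤ 2 * M ^ 2 * |x| := by
      rw [abs_mul, abs_mul, abs_two]
      nlinarith [abs_nonneg x]
    rw [abs_mul] at h9
    nlinarith [abs_nonneg q.2.1]
  have h11 : |q.2.2| ≤ q.2.1 ^ 2 + 1 := by
    have hD : q.2.1 ^ 2 - 4 * q.1 * q.2.2 = 4 := hq.1
    have h12 : |q.1| * |q.2.2| * 4 = |q.2.1 ^ 2 - 4| := by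
      have : q.2.1 ^ 2 - 4 = 4 * (q.1 * q.2.2) := by linarith
      rw [this, abs_mul, abs_mul]; norm_num; ring
    have h13 : |q.2.1 ^ 2 - 4| ≤ q.2.1 ^ 2 + 4 := by
      rw [abs_le]; constructor <;> nlinarith [sq_nonneg q.2.1]
    have h14 : 1 ≤ |q.1| := Int.one_le_abs ha
    nlinarith [abs_nonneg q.2.2]
  have h21 : q.2.1 ^ 2 ≤ (2 * |M| + 2 * M ^ 2 * |x|) ^ 2 := by
    rw [← sq_abs q.2.1]
    exact pow_le_pow_left₀ (abs_nonneg _) h8 2
  have p1 : 0 ≤ (2 * |M| + 2 * M ^ 2 * |x|) := by positivity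
  have p2 : 0 ≤ (2 * |M| + 2 * M ^ 2 * |x|) ^ 2 := by positivity
  have p3 : 0 ≤ M ^ 2 := by positivity
  have b1 := abs_le.1 hM2
  have b2 := abs_le.1 h8
  have b3 := abs_le.1 h11
  refine ⟨⟨?_, ?_⟩, ⟨?_, ?_⟩, ⟨?_, ?_⟩⟩ <;> rw [hK] <;> linarith

/-! ### the pairing -/

open Classical in
/-- the summand -/
noncomputable def gs (x M y N : ℤ) (q : ℤ × ℤ × ℤ) : ℤ :=
  if Fm q then cQ q * (Int.sign (ev q x M) - Int.sign (ev q y N)) else 0

/-- the signed crossing number (times two) of the geodesic from `x/M` to `y/N` -/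
noncomputable def GG (x M y N : ℤ) : ℤ := ∑ᶠ q, gs x M y N q

lemma gs_support {x M y N : ℤ} (h1 : Ok x M) (h2 : Ok y N) :
    (Function.support (gs x M y N)).Finite := by
  refine ((SS_finite h1).union (SS_finite h2)).subset ?_
  intro q hq
  unfold gs at hq
  rw [Function.mem_support] at hq
  by_cases hF : Fm q
  · rw [if_pos hF] at hq
    by_contra h
    rw [Set.mem_union, not_or] at h
    have e1 : Int.sign q.1 = Int.sign (ev q x M) := by
      by_contra h'; exact h.1 ⟨hF, h'⟩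
    have e2 : Int.sign q.1 = Int.sign (ev q y N) := by
      by_contra h'; exact h.2 ⟨hF, h'⟩
    exact hq (by rw [← e1, ← e2]; ring)
  · rw [if_neg hF] at hq; exact absurd rfl hq

lemma GG_add {x M y N z R : ℤ} (h1 : Ok x M) (h2 : Ok y N) (h3 : Ok z R) :
    GG x M z R = GG x M y N + GG y N z R := by
  unfold GG
  rw [← finsum_add_distrib (gs_support h1 h2) (gs_support h2 h3)]
  refine finsum_congr fun q => ?_
  unfold gs
  split_ifs <;> ring

/-! ### invariance -/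

/-- the action of an integral matrix -/
def act (a b c d : ℤ) (q : ℤ × ℤ × ℤ) : ℤ × ℤ × ℤ :=
  (q.1 * a ^ 2 + q.2.1 * a * c + q.2.2 * c ^ 2,
    2 * q.1 * a * b + q.2.1 * (a * d + b * c) + 2 * q.2.2 * c * d,
    q.1 * b ^ 2 + q.2.1 * b * d + q.2.2 * d ^ 2)

lemma ev_act (a b c d x M : ℤ) (q : ℤ × ℤ × ℤ) :
    ev (act a b c d q) x M = ev q (a * x + b * M) (c * x + d * M) := by
  unfold ev act; ring

lemma act_act {a b c d : ℤ} (h : a * d - b * c = 1) (q : ℤ × ℤ × ℤ) :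
    act a b c d (act d (-b) (-c) a q) = q := by
  have h' : d * a = 1 + b * c := by linarith
  unfold act
  ext
  · simp only
    linear_combination (q.1 * (a * d - b * c + 1)) * h
  · simp only
    linear_combination (q.2.1 * (a * d - b * c + 1)) * h
  · simp only
    linear_combination (q.2.2 * (a * d - b * c + 1)) * h

lemma Fm_act {a b c d : ℤ} (h : a * d - b * c = 1) (hc : 21 ∣ c) {q : ℤ × ℤ × ℤ} (hq : Fm q) :
    Fm (act a b c d q) := by
  obtain ⟨h1, h2, h3⟩ := hq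
  obtain ⟨c', rfl⟩ := hc
  obtain ⟨A', hA⟩ := h2
  refine ⟨?_, ?_, ?_⟩
  · unfold act
    simp only
    linear_combination (a * d - b * (21 * c') + 1) * (q.2.1 ^ 2 - 4 * q.1 * q.2.2) * h + h1
  · unfold act
    simp only
    rw [hA]
    exact ⟨A' * a ^ 2 + q.2.1 * a * c' + 21 * q.2.2 * c' ^ 2, by ring⟩
  · have e : (act a b (21 * c') d q).2.1 = q.2.1 + 42 * (A' * a * b + q.2.1 * b * c' +
        q.2.2 * c' * d) := by
      unfold act
      simp only
      rw [hA]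
      linear_combination q.2.1 * h
    rw [e, Int.add_mul_emod_self_left]
    exact h3

lemma Fm_act_iff {a b c d : ℤ} (h : a * d - b * c = 1) (hc : 21 ∣ c) (q : ℤ × ℤ × ℤ) :
    Fm (act a b c d q) ↔ Fm q := by
  refine ⟨fun h1 => ?_, Fm_act h hc⟩
  have h2 := Fm_act (a := d) (b := -b) (c := -c) (d := a) (by linarith) ((dvd_neg (α := ℤ)).2 hc) h1
  have h3 := act_act (a := d) (b := -b) (c := -c) (d := a) (by linarith) q
  rw [neg_neg, neg_neg] at h3
  rwa [h3] at h2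

lemma two_act {a b c d : ℤ} {q : ℤ × ℤ × ℤ} (hq : Fm q) (h2 : (2 : ℤ) ∣ q.1 ∧ (2 : ℤ) ∣ q.2.2) :
    (2 : ℤ) ∣ (act a b c d q).1 ∧ (2 : ℤ) ∣ (act a b c d q).2.2 := by
  obtain ⟨e, he, -⟩ := Fm_half hq
  obtain ⟨⟨u, hu⟩, ⟨v, hv⟩⟩ := h2
  unfold act
  simp only
  rw [he, hu, hv]
  exact ⟨⟨u * a ^ 2 + e * a * c + v * c ^ 2, by ring⟩, ⟨u * b ^ 2 + e * b * d + v * d ^ 2, by ring⟩⟩

lemma cQ_act {a b c d : ℤ} (h : a * d - b * c = 1) (hc : 21 ∣ c) {q : ℤ × ℤ × ℤ} (hq : Fm q) :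
    cQ (act a b c d q) = cQ q := by
  have hq' := Fm_act h hc hq
  have hB : (act a b c d q).2.1 % 42 = q.2.1 % 42 := by
    obtain ⟨c', rfl⟩ := hc
    obtain ⟨A', hA⟩ := hq.2.1
    have e : (act a b (21 * c') d q).2.1 = q.2.1 + 42 * (A' * a * b + q.2.1 * b * c' +
        q.2.2 * c' * d) := by
      unfold act
      simp only
      rw [hA]
      linear_combination q.2.1 * h
    rw [e, Int.add_mul_emod_self_left]
  have h2 : ((2 : ℤ) ∣ (act a b c d q).1 ∧ (2 : ℤ) ∣ (act a b c d q).2.2) ↔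
      ((2 : ℤ) ∣ q.1 ∧ (2 : ℤ) ∣ q.2.2) := by
    refine ⟨fun h1 => ?_, two_act hq⟩
    have h3 := two_act (a := d) (b := -b) (c := -c) (d := a) hq' h1
    have h4 := act_act (a := d) (b := -b) (c := -c) (d := a) (by linarith) q
    rw [neg_neg, neg_neg] at h4
    rwa [h4] at h3
  unfold cQ
  rw [hB]
  simp only [h2]

/-- the bijection of the forms -/
def actE {a b c d : ℤ} (h : a * d - b * c = 1) : (ℤ × ℤ × ℤ) ≃ (ℤ × ℤ × ℤ) where
  toFun := act a b c d
  invFun := act d (-b) (-c) a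
  left_inv q := by
    have h4 := act_act (a := d) (b := -b) (c := -c) (d := a) (by linarith) q
    rwa [neg_neg, neg_neg] at h4
  right_inv q := act_act h q

lemma GG_act {a b c d : ℤ} (h : a * d - b * c = 1) (hc : 21 ∣ c) (x M y N : ℤ) :
    GG (a * x + b * M) (c * x + d * M) (a * y + b * N) (c * y + d * N) = GG x M y N := by
  unfold GG
  rw [← finsum_comp_equiv (actE h) (f := gs x M y N)]
  refine finsum_congr fun q => ?_
  have e : actE h q = act a b c d q := rfl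
  rw [e]
  unfold gs
  by_cases hq : Fm q
  · rw [if_pos hq, if_pos (Fm_act h hc hq), cQ_act h hc hq, ev_act, ev_act]
  · rw [if_neg hq, if_neg (fun h' => hq ((Fm_act_iff h hc q).1 h'))]

/-! ### the relation with `Fp` -/

lemma Fm_neg {q : ℤ × ℤ × ℤ} (hq : Fm q) : Fm (-q) := by
  obtain ⟨h1, h2, h3⟩ := hq
  refine ⟨?_, ?_, ?_⟩
  · simp only [Prod.fst_neg, Prod.snd_neg]; linarith
  · simp only [Prod.fst_neg]; exact (dvd_neg (α := ℤ)).2 h2
  · simp only [Prod.fst_neg, Prod.snd_neg]; omega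

lemma cQ_neg {q : ℤ × ℤ × ℤ} (hq : Fm q) : cQ (-q) = - cQ q := by
  have h3 := hq.2.2
  unfold cQ
  simp only [Prod.fst_neg, Prod.snd_neg, dvd_neg]
  rcases h3 with h | h
  · rw [if_neg (by omega : ¬ (-q.2.1) % 42 = 26), if_pos h]; ring
  · rw [if_pos (by omega : (-q.2.1) % 42 = 26), if_neg (by omega : ¬ q.2.1 % 42 = 26)]; ring

lemma ev_neg (q : ℤ × ℤ × ℤ) (x M : ℤ) : ev (-q) x M = - ev q x M := by
  unfold ev
  simp only [Prod.fst_neg, Prod.snd_neg]
  ring

open Classical in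
/-- the summand of `Fp` -/
noncomputable def fs (x M : ℤ) (q : ℤ × ℤ × ℤ) : ℤ :=
  if Fm q ∧ 0 < q.1 ∧ ev q x M < 0 then cQ q else 0

lemma Fp_eq (x M : ℤ) : Fp x M = ∑ᶠ q, fs x M q := rfl

lemma fs_support {x M : ℤ} (h : Ok x M) : (Function.support (fs x M)).Finite := by
  refine (SS_finite h).subset ?_
  intro q hq
  rw [Function.mem_support] at hq
  unfold fs at hq
  by_cases hF : Fm q ∧ 0 < q.1 ∧ ev q x M < 0
  · refine ⟨hF.1, ?_⟩
    rw [Int.sign_eq_one_of_pos hF.2.1, Int.sign_eq_neg_one_of_neg hF.2.2]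
    decide
  · rw [if_neg hF] at hq; exact absurd rfl hq

theorem GG_inf {x M : ℤ} (h : Ok x M) : GG 1 0 x M = 4 * Fp x M := by
  have h1 : ∑ᶠ q, fs x M (-q) = ∑ᶠ q, fs x M q :=
    finsum_comp_equiv (Equiv.neg (ℤ × ℤ × ℤ)) (f := fs x M)
  have hs := fs_support h
  have hs' : (Function.support (fun q => fs x M (-q))).Finite := by
    have : Function.support (fun q => fs x M (-q)) = (fun q => -q) ⁻¹' (Function.support (fs x M)) := by
      ext q; simp
    rw [this]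
    exact hs.preimage (neg_injective.injOn)
  have h2 : GG 1 0 x M = ∑ᶠ q, (fs x M q + fs x M q + (fs x M (-q) + fs x M (-q))) := by
    unfold GG
    refine finsum_congr fun q => ?_
    unfold gs fs
    by_cases hF : Fm q
    · rw [if_pos hF, ev_inf, ev_neg, cQ_neg hF]
      have ha := Fm_a hF
      have he := h q hF
      simp only [hF, Fm_neg hF, true_and, Prod.fst_neg]
      rcases lt_or_gt_of_ne ha with h1 | h1 <;> rcases lt_or_gt_of_ne he with h2 | h2
      · rw [Int.sign_eq_neg_one_of_neg h1, Int.sign_eq_neg_one_of_neg h2, if_neg (by omega),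
          if_neg (by omega)]; ring
      · rw [Int.sign_eq_neg_one_of_neg h1, Int.sign_eq_one_of_pos h2, if_neg (by omega),
          if_pos (by omega)]; ring
      · rw [Int.sign_eq_one_of_pos h1, Int.sign_eq_neg_one_of_neg h2, if_pos (by omega),
          if_neg (by omega)]; ring
      · rw [Int.sign_eq_one_of_pos h1, Int.sign_eq_one_of_pos h2, if_neg (by omega),
          if_neg (by omega)]; ring
    · have hF' : ¬ Fm (-q) := fun h' => hF (by have := Fm_neg h'; rwa [neg_neg] at this)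
      rw [if_neg hF, if_neg (fun h' => hF h'.1), if_neg (fun h' => hF' h'.1)]; ring
  rw [h2, finsum_add_distrib (hs.union hs |>.subset (Function.support_add _ _))
    (hs'.union hs' |>.subset (Function.support_add _ _)), finsum_add_distrib hs hs,
    finsum_add_distrib hs' hs', h1, Fp_eq]
  ring

/-- the main formula -/
theorem Fp_act {a b c d : ℤ} (h : a * d - b * c = 1) (hc : 21 ∣ c) {x M : ℤ} (h1 : Ok x M)
    (h2 : Ok (a * x + b * M) (c * x + d * M)) (h3 : Ok a c) :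
    Fp (a * x + b * M) (c * x + d * M) = Fp a c + Fp x M := by
  have e1 := GG_inf h2
  have e2 := GG_inf h1
  have e3 := GG_inf h3
  have e4 := GG_add Ok_inf h3 h2
  have e5 := GG_act h hc 1 0 x M
  rw [show a * 1 + b * 0 = a by ring, show c * 1 + d * 0 = c by ring] at e5
  omega

/-- the oddness -/
theorem Fp_neg (x M : ℤ) : Fp (-x) M = - Fp x M := by
  rw [Fp_eq, Fp_eq]
  have e : (∑ᶠ q, fs (-x) M q) = ∑ᶠ q : ℤ × ℤ × ℤ, fs (-x) M (q.1, -q.2.1, q.2.2) := by
    let E : (ℤ × ℤ × ℤ) ≃ (ℤ × ℤ × ℤ) :=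
      { toFun := fun q => (q.1, -q.2.1, q.2.2)
        invFun := fun q => (q.1, -q.2.1, q.2.2)
        left_inv := fun q => by simp
        right_inv := fun q => by simp }
    exact (finsum_comp_equiv E (f := fs (-x) M)).symm
  rw [e, ← finsum_neg_distrib]
  refine finsum_congr fun q => ?_
  unfold fs
  have h1 : ev (q.1, -q.2.1, q.2.2) (-x) M = ev q x M := by unfold ev; ring
  have h2 : Fm (q.1, -q.2.1, q.2.2) ↔ Fm q := by
    unfold Fm
    simp only
    constructor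
    · rintro ⟨a1, a2, a3⟩; exact ⟨by linarith, a2, by omega⟩
    · rintro ⟨a1, a2, a3⟩; exact ⟨by linarith, a2, by omega⟩
  rw [h1]
  by_cases hF : Fm q ∧ 0 < q.1 ∧ ev q x M < 0
  · rw [if_pos hF, if_pos (⟨h2.2 hF.1, hF.2⟩ : Fm (q.1, -q.2.1, q.2.2) ∧ 0 < q.1 ∧ ev q x M < 0)]
    have h3 := hF.1.2.2
    unfold cQ
    simp only
    rcases h3 with h | h
    · rw [if_neg (by omega : ¬ (-q.2.1) % 42 = 26), if_pos h]; ring
    · rw [if_pos (by omega : (-q.2.1) % 42 = 26), if_neg (by omega : ¬ q.2.1 % 42 = 26)]; ring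
  · rw [if_neg hF, if_neg (fun h' : Fm (q.1, -q.2.1, q.2.2) ∧ 0 < q.1 ∧ ev q x M < 0 =>
      hF ⟨h2.1 h'.1, h'.2⟩)]; ring

theorem Fp_neg_neg (x M : ℤ) : Fp (-x) (-M) = Fp x M := by
  rw [Fp_eq, Fp_eq]
  refine finsum_congr fun q => ?_
  unfold fs
  have h1 : ev q (-x) (-M) = ev q x M := by unfold ev; ring
  rw [h1]

theorem Fp_inf (x : ℤ) : Fp x 0 = 0 := by
  rw [Fp_eq]
  have : ∀ q, fs x 0 q = 0 := by
    intro q
    unfold fs
    rw [if_neg]
    rintro ⟨-, h1, h2⟩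
    unfold ev at h2
    nlinarith [sq_nonneg x]
  simp [this]

end Pool.Agent.Run7.h843.P21.Lk
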