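import Pool.Agent.Run7.h843.P21.Ev
import Pool.Agent.Run7.h843.P21.Gen

/-!
# Values of `Fp` and the determination of the odd homomorphisms on `Γ₀(21)`
(after `Run7/h741/P15/Val.lean`)
-/

set_option autoImplicit false

namespace Pool.Agent.Run7.h843.P21.Lk

open Finset
open Pool.Agent.Run7.h843.P21 (Fm cQ Fp)

/-- the forms separating `∞` and `x/21` -/
lemma form21 {x : ℤ} {q : ℤ × ℤ × ℤ} (hq : Fm q) (hA : 0 < q.1) (he : ev q x 21 < 0) :
    q.1 = 21 ∧ q.2.1 = -2 * x ∧ 21 * q.2.2 = x ^ 2 - 1 ∧ ((-x) % 21 = 8 ∨ (-x) % 21 = 13) := by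
  obtain ⟨b, hb, hb'⟩ := Fm_half hq
  obtain ⟨j, hj⟩ := hq.2.1
  have h4 := four_ev hq x 21
  have hD : q.2.1 ^ 2 - 4 * q.1 * q.2.2 = 4 := hq.1
  have h5 : q.1 * ev q x 21 < 0 := mul_neg_of_pos_of_neg hA he
  rw [hj, hb] at h4
  rw [hj] at h5
  have h6 : (j * x + b) ^ 2 < 1 := by nlinarith
  have h7 : j * x + b = 0 := by
    have : |j * x + b| < 1 := by
      apply abs_lt_of_sq_lt_sq _ (by norm_num) |> fun h => h
      simpa using h6
    exact Int.abs_lt_one_iff.1 this
  have hbj : b = -(j * x) := by linarith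
  rw [hb, hj, hbj] at hD
  have h8 : j * (j * x ^ 2 - 21 * q.2.2) = 1 := by linarith
  have hj1 : j = 1 := by
    rcases Int.eq_one_or_neg_one_of_mul_eq_one h8 with h | h
    · exact h
    · omega
  rw [hj1] at hj h8 hbj
  refine ⟨by linarith, by rw [hb, hbj]; ring, by linarith, ?_⟩
  rw [hbj, one_mul] at hb'
  exact hb'

lemma Fp21_zero {x : ℤ} (h1 : (-x) % 21 ≠ 8) (h2 : (-x) % 21 ≠ 13) : Fp x 21 = 0 := by
  rw [Fp_eq]
  refine finsum_eq_zero_of_forall_eq_zero fun q => ?_
  unfold fs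
  rw [if_neg]
  rintro ⟨hq, hA, he⟩
  obtain ⟨-, -, -, h | h⟩ := form21 hq hA he
  · exact h1 h
  · exact h2 h

lemma Fp_8_21 : Fp 8 21 = 1 := by
  rw [Fp_eq, finsum_eq_single _ (((21 : ℤ), (-16 : ℤ), (3 : ℤ)) : ℤ × ℤ × ℤ)]
  · unfold fs
    rw [if_pos ⟨⟨by norm_num, by norm_num, by norm_num⟩, by norm_num, by unfold ev; norm_num⟩]
    unfold cQ
    norm_num
  · intro q hq
    unfold fs
    rw [if_neg]
    rintro ⟨hF, hA, he⟩
    obtain ⟨e1, e2, e3, -⟩ := form21 hF hA he
    apply hq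
    ext
    · exact e1
    · simpa using e2
    · simp only; linarith

lemma Fp_13_42 : Fp 13 42 = 1 := by
  rw [Fp_eq, finsum_eq_single _ (((42 : ℤ), (-26 : ℤ), (4 : ℤ)) : ℤ × ℤ × ℤ)]
  · unfold fs
    rw [if_pos ⟨⟨by norm_num, by norm_num, by norm_num⟩, by norm_num, by unfold ev; norm_num⟩]
    unfold cQ
    norm_num
  · intro q hq
    unfold fs
    rw [if_neg]
    rintro ⟨hF, hA, he⟩
    apply hq
    obtain ⟨b, hb, hb'⟩ := Fm_half hF
    obtain ⟨j, hj⟩ := hF.2.1
    have h4 := four_ev hF 13 42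
    have hD : q.2.1 ^ 2 - 4 * q.1 * q.2.2 = 4 := hF.1
    have h5 : q.1 * ev q 13 42 < 0 := mul_neg_of_pos_of_neg hA he
    rw [hj, hb] at h4
    rw [hj] at h5
    have hj0 : 0 < j := by omega
    have h6 : (13 * j + 2 * b) ^ 2 < 2 ^ 2 := by nlinarith
    have h7 : |13 * j + 2 * b| < 2 := by
      have := abs_lt_of_sq_lt_sq h6 (by norm_num)
      exact this
    have h8 := abs_lt.1 h7
    rw [hb, hj] at hD
    obtain ⟨e, he'⟩ : ∃ e, e = 13 * j + 2 * b := ⟨_, rfl⟩
    rw [← he'] at h8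
    have h9 : e ^ 2 - 4 = j * (26 * e - 169 * j + 84 * q.2.2) := by
      rw [he']; linarith
    have h10 : e = -1 ∨ e = 0 ∨ e = 1 := by omega
    have h11 : j ≤ 4 := by
      rcases h10 with rfl | rfl | rfl
      · have : j ∣ 3 := ⟨-(26 * (-1) - 169 * j + 84 * q.2.2), by linarith⟩
        have := Int.le_of_dvd (by norm_num) this
        omega
      · have : j ∣ 4 := ⟨-(26 * 0 - 169 * j + 84 * q.2.2), by linarith⟩
        exact Int.le_of_dvd (by norm_num) this
      · have : j ∣ 3 := ⟨-(26 * 1 - 169 * j + 84 * q.2.2), by linarith⟩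
        have := Int.le_of_dvd (by norm_num) this
        omega
    have h12 : j = 1 ∨ j = 2 ∨ j = 3 ∨ j = 4 := by omega
    rcases h12 with rfl | rfl | rfl | rfl
    · exfalso; omega
    · rcases h10 with rfl | rfl | rfl
      · exfalso; omega
      · have hb2 : b = -13 := by omega
        subst hb2
        ext
        · linarith
        · linarith
        · simp only; omega
      · exfalso; omega
    · exfalso; omega
    · rcases h10 with rfl | rfl | rfl
      · exfalso; omega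
      · have hb2 : b = -26 := by omega
        subst hb2
        exfalso; omega
      · exfalso; omega

/-- the homomorphism -/
lemma cop {a b c d : ℤ} (h : a * d - b * (21 * c) = 1) : IsCoprime a 21 := ⟨d, -(b * c), by linarith⟩

lemma Ok_col {a b c d : ℤ} (h : a * d - b * (21 * c) = 1) : Ok a (21 * c) :=
  Ok_of_dvd (dvd_mul_right _ _) (cop h)

lemma Fp_mul {a b c d a' b' c' d' : ℤ} (h : a * d - b * (21 * c) = 1)
    (h' : a' * d' - b' * (21 * c') = 1) :
    Fp (a * a' + b * (21 * c')) (21 * (c * a' + d * c')) = Fp a (21 * c) + Fp a' (21 * c') := by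
  have h1 : Ok (a * a' + b * (21 * c')) (21 * c * a' + d * (21 * c')) := by
    refine Ok_of_dvd ⟨c * a' + d * c', by ring⟩ ?_
    have e1 := cop h
    have e2 := cop h'
    have e3 := e1.mul_left e2
    obtain ⟨u, v, huv⟩ := e3
    exact ⟨u, v - u * b * c', by linarith⟩
  have h2 := Fp_act h (dvd_mul_right _ _) (Ok_col h') h1 (Ok_col h)
  rw [← h2]
  congr 1
  ring

lemma Fp_add {x M : ℤ} (m : ℤ) (h : Ok x M) (h' : Ok (x + m * M) M) : Fp (x + m * M) M = Fp x M := by
  have h1 := Fp_act (a := 1) (b := m) (c := 0) (d := 1) (by norm_num) (dvd_zero _) h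
    (by rw [one_mul, zero_mul, zero_add, one_mul]; exact h') Ok_inf
  rw [Fp_inf, one_mul, zero_mul, zero_add, one_mul, zero_add] at h1
  exact h1

lemma Fp_22_63 : Fp 22 63 = 0 := by
  have h1 := Fp_mul (a := 8) (b := 3) (c := 1) (d := 8) (a' := -13) (b' := 4) (c' := 2)
    (d' := -13) (by norm_num) (by norm_num)
  norm_num at h1
  rw [Fp_8_21, Fp_neg, Fp_13_42] at h1
  rw [h1]
  norm_num

/-- the homomorphism `Fp` -/
noncomputable def ph (a _b c _d : ℤ) : ℝ := (Fp a (21 * c) : ℝ)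

lemma ph_hm : Hm ph := by
  intro a b c d a' b' c' d' h h'
  unfold ph
  rw [Fp_mul h h']
  push_cast
  ring

/-- **the odd homomorphisms on `Γ₀(21)` are the multiples of `Fp`** -/
theorem hom_eq {h : ℤ → ℤ → ℤ → ℤ → ℝ} (hm : Hm h) (hT : h 1 1 0 1 = 0) (h0 : h 1 0 1 1 = 0)
    (h3 : h 22 (-7) 3 (-20) = 0)
    (hodd : ∀ a b c d : ℤ, a * d - b * (21 * c) = 1 → h a (-b) (-c) d = - h a b c d)
    (a b c d : ℤ) (hd : a * d - b * (21 * c) = 1) : h a b c d = h 8 3 1 8 * (Fp a (21 * c) : ℝ) := by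
  have D : Dat (fun a b c d => h a b c d - h 8 3 1 8 * ph a b c d) := by
    refine ⟨?_, ?_, ?_, ?_, ?_, ?_⟩
    · intro a b c d a' b' c' d' e e'
      beta_reduce
      rw [hm a b c d a' b' c' d' e e', ph_hm a b c d a' b' c' d' e e']
      ring
    · rw [hT]; unfold ph; rw [mul_zero, Fp_inf]; simp
    · rw [h0]; unfold ph
      rw [mul_one, Fp21_zero (by norm_num) (by norm_num)]; simp
    · rw [h3]; unfold ph; norm_num; right; exact Fp_22_63
    · intro a b c d e
      rw [hodd a b c d e]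
      unfold ph
      have e1 : Fp a (21 * -c) = - Fp a (21 * c) := by
        have := Fp_neg_neg (-a) (21 * c)
        rw [neg_neg, Fp_neg] at this
        rw [← this]; congr 1; ring
      rw [e1]
      push_cast
      ring
    · unfold ph; norm_num [Fp_8_21]
  have := D.zero a b c d hd
  unfold ph at this
  linarith

lemma Fp_zero_one : Fp 0 1 = 0 := by
  rw [Fp_eq]
  refine finsum_eq_zero_of_forall_eq_zero fun q => ?_
  unfold fs
  rw [if_neg]
  rintro ⟨hq, hA, he⟩
  have hD : q.2.1 ^ 2 - 4 * q.1 * q.2.2 = 4 := hq.1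
  obtain ⟨j, hj⟩ := hq.2.1
  unfold ev at he
  norm_num at he
  have hj1 : 1 ≤ j := by omega
  have h1 : 1 ≤ j * (-q.2.2) := by nlinarith
  rw [hj] at hD
  nlinarith [sq_nonneg q.2.1]

/-- the value at a point of the class of the cusp `0` -/
theorem Fp_cusp0 {a b c d : ℤ} (hd : a * d - b * (21 * c) = 1) : Fp b d = Fp a (21 * c) := by
  have hcd : IsCoprime d 21 := ⟨a, -(b * c), by linarith⟩
  have h1 := Fp_act (x := 0) (M := 1) hd (dvd_mul_right _ _)
    (Ok_of_coprime isCoprime_one_left) (by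
      rw [mul_zero, mul_zero, zero_add, zero_add, mul_one, mul_one]
      exact Ok_of_coprime hcd) (Ok_col hd)
  rw [mul_zero, mul_zero, zero_add, zero_add, mul_one, mul_one, Fp_zero_one, add_zero] at h1
  exact h1

end Pool.Agent.Run7.h843.P21.Lk
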