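import Pool.Agent.Run7.h741.MG.Opt
import Pool.Agent.Run7.h843.P21.Val

/-!
The modular symbols of level `21` (after `Run7/h741/MF/Sym.lean`).
-/

set_option autoImplicit false

open Filter Topology MeasureTheory Set

namespace Pool.Agent.Run7.h843.P21.MS

open Pool.Agent.W97.TW
open Pool.Agent.W97.MT (qq qq_ne norm_qq norm_qq_lt im_mul z_ne H_open QV iI iI_pos iI_eventually
  tendsto_qq S_QEXP S_INJ S_ODE S_SUB hasDerivAt_qq tpi_ne line_im line_re inv_I im_aux frac_aux
  qq_conj)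
open Pool.Agent.Run7.h741.MG
open Pool.Agent.Run7.h741.MF (hqe)
open Pool.Agent.Run7.h843.P21.Lk (Hm hom_eq Fp_cusp0)
open Pool.Agent.Run7.h843.P21 (Fp)

/-! ### the period homomorphism -/

lemma det_mul {a b c d a' b' c' d' : ℤ} (h : a * d - b * (21 * c) = 1)
    (h' : a' * d' - b' * (21 * c') = 1) :
    (a * a' + b * (21 * c')) * (21 * c * b' + d * d') -
      (a * b' + b * d') * (21 * (c * a' + d * c')) = 1 := by
  linear_combination (a' * d' - b' * (21 * c')) * h + h'

lemma per_mul {a b c d a' b' c' d' : ℤ} (h : a * d - b * (21 * c) = 1)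
    (h' : a' * d' - b' * (21 * c') = 1) :
    per (a * a' + b * (21 * c')) (a * b' + b * d') (c * a' + d * c') (21 * c * b' + d * d') =
      per a b c d + per a' b' c' d' := by
  have hdet := det_mul h h'
  have hz := I_pos
  have h1 := (G_gamma h' hz).1
  have h2 := (G_gamma h' hz).2.1
  have e := per_spec h h1
  rw [per_spec h' hz] at e
  refine per_eq hdet hz ?_
  rw [add_comm (per a b c d), ← add_assoc, ← e]
  congr 1
  push_cast
  rw [frac_aux _ _ h2, frac_aux _ _ h2, div_div_div_cancel_right₀ h2]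
  congr 1 <;> ring

/-- the imaginary part -/
noncomputable def hI (a b c d : ℤ) : ℝ := (per a b c d).im

lemma hI_hm : Hm hI := by
  intro a b c d a' b' c' d' h h'
  unfold hI
  rw [per_mul h h', Complex.add_im]

lemma F_add_one (z : ℂ) : F (z + 1) = F z := by
  unfold F
  congr 1
  unfold qq
  rw [mul_add, Complex.exp_add, mul_one, Complex.exp_two_pi_mul_I, mul_one]

lemma F_sub_one (z : ℂ) : F (z - 1) = F z := by
  have := F_add_one (z - 1)
  rw [sub_add_cancel] at this
  exact this.symm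

lemma per_T : per 1 1 0 1 = 0 := by
  unfold per
  have : (((1 : ℤ) : ℂ) * Complex.I + ((1 : ℤ) : ℂ)) / (21 * ((0 : ℤ) : ℂ) * Complex.I + ((1 : ℤ) : ℂ)) =
      Complex.I + 1 := by
    push_cast; ring
  rw [this, F_add_one, sub_self]

/-- the primitive along a translate at a cusp -/
lemma F_shift {m j : ℂ → ℂ} (hm : IsMap m j) {a b c d : ℤ} (h : a * d - b * (21 * c) = 1)
    (he : ∀ z : ℂ, 0 < z.im → (a * m z + b) / (21 * c * m z + d) = m (z - 1)) :
    per a b c d = 0 := by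
  obtain ⟨C, Ψ, aΨ, h0, h1⟩ := hm.const
  obtain ⟨T, hT, h2⟩ := iI_eventually.1 h1
  set z0 : ℂ := ((T + 1 : ℝ) : ℂ) * Complex.I with hz0
  have e0 : T < z0.im := by rw [hz0]; simp
  have e1 : T < (z0 - 1).im := by rw [hz0]; simp
  have hz : 0 < z0.im := lt_of_le_of_lt hT e0
  have h3 := per_spec h (hm.pos _ hz)
  rw [he z0 hz, h2 _ e0, h2 _ e1] at h3
  have e2 : qq (z0 - 1) = qq z0 := by
    unfold qq
    rw [mul_sub, Complex.exp_sub, mul_one, Complex.exp_two_pi_mul_I, div_one]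
  rw [e2] at h3
  exact (add_eq_left.1 h3.symm)

lemma per_0 : per 1 0 1 1 = 0 := by
  refine F_shift (isCusp21 hcp hqe).map (by norm_num) fun z hz => ?_
  have h0 := z_ne hz
  have h1 : z - 1 ≠ 0 := z_ne (z := z - 1) (by simpa using hz)
  unfold m21
  push_cast
  have e : (21 : ℂ) * 1 * (-1 / (21 * z)) + 1 = (z - 1) / z := by
    field_simp
    ring
  rw [e]
  field_simp
  ring

lemma per_3 : per 22 (-7) 3 (-20) = 0 := by
  refine F_shift cusp7.map (by norm_num) fun z hz => ?_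
  have h0 := w7_aux hz
  have h1 := w7_aux (z := z - 1) (by simpa using hz)
  unfold m7
  push_cast
  have e0 : 21 * z + 7 = 7 * (3 * z + 1) := by ring
  have e1 : 21 * (z - 1) + 7 = 7 * (3 * (z - 1) + 1) := by ring
  rw [e0, e1]
  have h0' : z * 3 + 1 ≠ 0 := by rwa [mul_comm]
  have h1' : (z - 1) * 3 + 1 ≠ 0 := by rwa [mul_comm]
  have e : 21 * 3 * ((7 * z + 2) / (7 * (3 * z + 1))) + -20 = (3 * (z - 1) + 1) / (3 * z + 1) := by
    field_simp
    ring
  have e2 : 22 * ((7 * z + 2) / (7 * (3 * z + 1))) + -7 = (7 * (z - 1) + 2) / (7 * (3 * z + 1)) := by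
    field_simp
    ring
  rw [e, e2]
  field_simp

/-! ### complex conjugation -/

lemma rep_conj {f : ℂ → ℂ} {P : PowerSeries ℤ} (rP : W97.MT.Rep f P) {q : ℂ} (hq : ‖q‖ < 1) :
    f (starRingEnd ℂ q) = starRingEnd ℂ (f q) := by
  have h1 := rP (starRingEnd ℂ q) (by simpa using hq)
  have h2 := (rP q hq).map (starRingEnd ℂ) Complex.continuous_conj
  refine h1.unique (h2.congr_fun ?_ |> fun x => x)
  intro n
  simp only [Function.comp_apply, map_mul, map_pow, PowerSeries.coeff_map, eq_intCast]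
  congr 1
  exact (map_intCast (starRingEnd ℂ) _).symm

lemma neg_conj_im {z : ℂ} (hz : 0 < z.im) : 0 < (-(starRingEnd ℂ z)).im := by simpa using hz

lemma X1_conj {z : ℂ} (hz : 0 < z.im) : X1 (-(starRingEnd ℂ z)) = starRingEnd ℂ (X1 z) := by
  obtain ⟨Ξ, U, Θ, rΞ, rU, -⟩ := expansions hqe
  rw [X1_q (neg_conj_im hz), X1_q hz, qq_conj, rep_conj rΞ (norm_qq_lt hz), map_div₀, map_pow]

lemma V1_conj {z : ℂ} (hz : 0 < z.im) : V1 (-(starRingEnd ℂ z)) = starRingEnd ℂ (V1 z) := by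
  obtain ⟨Ξ, U, Θ, rΞ, rU, -⟩ := expansions hqe
  rw [V1_q (neg_conj_im hz), V1_q hz, qq_conj, rep_conj rU (norm_qq_lt hz), map_div₀, map_pow]

lemma RR_conj {z : ℂ} (hz : 0 < z.im) : RR (-(starRingEnd ℂ z)) = starRingEnd ℂ (RR z) := by
  unfold RR Y1
  rw [X1_conj hz, V1_conj hz]
  have e2 : (starRingEnd ℂ) (2 : ℂ) = 2 := Complex.conj_ofNat 2
  have e7 : (starRingEnd ℂ) (7 : ℂ) = 7 := Complex.conj_ofNat 7
  rw [map_div₀, map_add, map_sub, map_pow, e2, e7]

lemma deriv_conj {g : ℂ → ℂ} (hg : ∀ z : ℂ, 0 < z.im → g (-(starRingEnd ℂ z)) = starRingEnd ℂ (g z))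
    (hd : ∀ z : ℂ, 0 < z.im → DifferentiableAt ℂ g z) {z : ℂ} (hz : 0 < z.im) :
    deriv g (-(starRingEnd ℂ z)) = -starRingEnd ℂ (deriv g z) := by
  have h1 : HasDerivAt (fun u : ℂ => g (-u)) (-(deriv g z)) (-z) := by
    have h2 : HasDerivAt g (deriv g z) (-(-z)) := by
      rw [neg_neg]; exact (hd z hz).hasDerivAt
    have h3 := h2.comp (-z) (hasDerivAt_neg (-z))
    rw [mul_neg_one] at h3
    exact h3
  have h4 := h1.conj_conj
  rw [map_neg, map_neg] at h4
  have h5 : (⇑(starRingEnd ℂ) ∘ (fun u : ℂ => g (-u)) ∘ ⇑(starRingEnd ℂ)) =ᶠ[𝓝 (-(starRingEnd ℂ z))] g := by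
    filter_upwards [H_open.mem_nhds (neg_conj_im hz)] with w hw
    simp only [Function.comp_apply]
    rw [hg w hw, Complex.conj_conj]
  exact (h4.congr_of_eventuallyEq h5.symm).deriv

lemma ff_conj {z : ℂ} (hz : 0 < z.im) : ff (-(starRingEnd ℂ z)) = starRingEnd ℂ (ff z) := by
  unfold ff
  rw [X1_conj hz, RR_conj hz, deriv_conj (fun z hz => X1_conj hz) (fun z hz => X1_diff hz) hz,
    deriv_conj (fun z hz => RR_conj hz) (fun z hz => RR_diff hz) hz]
  have e : (starRingEnd ℂ) (2 * (Real.pi : ℂ) * Complex.I) = -(2 * Real.pi * Complex.I) := by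
    rw [map_mul, map_mul, Complex.conj_ofReal, Complex.conj_I]
    have : (starRingEnd ℂ) (2 : ℂ) = 2 := Complex.conj_ofNat 2
    rw [this]; ring
  have cq : ∀ r : ℚ, (starRingEnd ℂ) (r : ℂ) = r := fun r => by
    have e : ((r : ℚ) : ℂ) = (((r : ℚ) : ℝ) : ℂ) := by push_cast; rfl
    rw [e]; exact Complex.conj_ofReal _
  have c1 := cq (2507 / 15876)
  have c2 := cq (193 / 2646)
  have c3 := cq (1 / 28)
  have c4 := cq (3151 / 31752)
  have c5 := cq (193 / 7938)
  have c6 := cq 2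
  push_cast at c1 c2 c3 c4 c5 c6
  rw [map_div₀, e, map_add, map_mul, map_mul, map_mul, map_mul, map_sub, map_add, map_sub, map_mul,
    map_mul, map_mul, map_pow, c1, c2, c3, c4, c5, c6, div_neg, ← neg_div]
  congr 1
  ring

lemma F_int {z : ℂ} (hz : 0 < z.im) :
    F z = 2 * Real.pi * ∫ t in Set.Ioi (0 : ℝ), ff (z + t * Complex.I) := by
  symm
  refine integral_line _ hz.le (ff_line_int _ (by rw [add_zero]; exact hz)) ?_
  have h1 : ContinuousAt (fun t : ℝ => F (z + t * Complex.I)) 0 := by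
    refine ContinuousAt.comp (g := F) (f := fun t : ℝ => z + t * Complex.I) ?_ (by fun_prop)
    simp only [Complex.ofReal_zero, zero_mul, add_zero]
    exact (F_diff hz).continuousAt
  have h2 := h1.tendsto
  simp only [Complex.ofReal_zero, zero_mul, add_zero] at h2
  exact h2.mono_left nhdsWithin_le_nhds

lemma conj_tpi : (starRingEnd ℂ) (2 * (Real.pi : ℂ)) = 2 * Real.pi := by
  rw [map_mul, Complex.conj_ofReal]
  congr 1
  exact Complex.conj_ofNat 2

lemma F_conj {z : ℂ} (hz : 0 < z.im) : F (-(starRingEnd ℂ z)) = starRingEnd ℂ (F z) := by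
  have hz' : 0 < (-(starRingEnd ℂ z)).im := by simpa using hz
  rw [F_int hz', F_int hz, map_mul, ← integral_conj, conj_tpi]
  congr 1
  refine setIntegral_congr_fun measurableSet_Ioi fun t ht => ?_
  have ht' : 0 < t := ht
  rw [← ff_conj (by rw [line_im]; linarith)]
  congr 1
  simp only [map_add, map_mul, Complex.conj_I, Complex.conj_ofReal]
  ring

lemma per_conj {a b c d : ℤ} (h : a * d - b * (21 * c) = 1) :
    per a (-b) (-c) d = starRingEnd ℂ (per a b c d) := by
  have hz : (0 : ℝ) < Complex.I.im := I_pos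
  have hdet : a * d - (-b) * (21 * (-c)) = 1 := by linarith
  refine per_eq hdet hz ?_
  have h1 := (G_gamma h hz).1
  have h3 := F_conj h1
  rw [per_spec h hz, map_add, ← F_conj hz] at h3
  have e1 : -(starRingEnd ℂ) Complex.I = Complex.I := by simp
  rw [e1] at h3
  rw [← h3]
  congr 1
  have e21 : (starRingEnd ℂ) (21 : ℂ) = 21 := Complex.conj_ofNat 21
  rw [map_div₀, map_add, map_add, map_mul, map_mul, map_mul, Complex.conj_I, e21]
  simp only [map_intCast]
  push_cast
  rw [← neg_div]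
  congr 1 <;> ring

lemma hI_odd (a b c d : ℤ) (h : a * d - b * (21 * c) = 1) :
    hI a (-b) (-c) d = - hI a b c d := by
  unfold hI
  rw [per_conj h, Complex.conj_im]

/-- the constant -/
noncomputable def kappa : ℝ := hI 8 3 1 8

theorem hI_eq {a b c d : ℤ} (h : a * d - b * (21 * c) = 1) :
    hI a b c d = kappa * (Fp a (21 * c) : ℝ) :=
  hom_eq hI_hm (by unfold hI; rw [per_T]; simp) (by unfold hI; rw [per_0]; simp)
    (by unfold hI; rw [per_3]; simp) hI_odd a b c d h

end Pool.Agent.Run7.h843.P21.MS
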